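import Pool.Agent.Helper53.SL.St2

set_option autoImplicit false

open Polynomial Filter Topology
open Pool.Agent.Helper96.Salem (IsPisot)

namespace Pool.Agent.Helper38.SLM

open Pool.Agent.Helper53.SL

private theorem sh_pow_apply (K : Type) [CommRing K] (i : ℕ) (x : ℕ → K) (k : ℕ) :
    ((sh K ^ i) x) k = x (k + i) := by
  induction i generalizing k with
  | zero => simp
  | succ i ih =>
    rw [pow_succ', Module.End.mul_apply]
    change ((sh K ^ i) x) (k + 1) = _
    rw [ih]
    congr 1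
    ring

private theorem ash {K : Type} [CommRing K] (f : K[X]) (n : ℕ) (hn : f.natDegree < n) (x : ℕ → K)
    (k : ℕ) : (aeval (sh K) f x) k = ∑ i ∈ Finset.range n, f.coeff i * x (k + i) := by
  rw [aeval_eq_sum_range' hn, LinearMap.sum_apply, Finset.sum_apply]
  refine Finset.sum_congr rfl fun i _ => ?_
  rw [LinearMap.smul_apply, Pi.smul_apply, sh_pow_apply, smul_eq_mul]

private theorem cast_sh {R K : Type} [CommRing R] [CommRing K] (φ : R →+* K) (f : R[X]) (x : ℕ → R)
    (k : ℕ) : (aeval (sh K) (f.map φ) fun j => φ (x j)) k = φ ((aeval (sh R) f x) k) := by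
  rw [ash (f.map φ) (f.natDegree + 1) (Nat.lt_succ_of_le natDegree_map_le),
    ash f (f.natDegree + 1) (Nat.lt_succ_self _), map_sum]
  refine Finset.sum_congr rfl fun i _ => ?_
  rw [coeff_map, map_mul]

private theorem sh_geom {K : Type} [CommRing K] (f : K[X]) (a c : K) (k : ℕ) :
    (aeval (sh K) f fun j => a * c ^ j) k = f.eval c * (a * c ^ k) := by
  rw [ash f (f.natDegree + 1) (Nat.lt_succ_self _), eval_eq_sum_range, Finset.sum_mul]
  refine Finset.sum_congr rfl fun i _ => ?_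
  rw [pow_add]
  ring

private theorem sh_tend {K : Type} [NormedField K] (f : K[X]) (E : ℕ → K)
    (hE : Tendsto E atTop (𝓝 0)) : Tendsto (aeval (sh K) f E) atTop (𝓝 0) := by
  have h : (aeval (sh K) f E) =
      fun k => ∑ i ∈ Finset.range (f.natDegree + 1), f.coeff i * E (k + i) := by
    funext k
    exact ash f (f.natDegree + 1) (Nat.lt_succ_self _) E k
  rw [h]
  have h2 : Tendsto (fun k => ∑ i ∈ Finset.range (f.natDegree + 1), f.coeff i * E (k + i)) atTop
      (𝓝 (∑ i ∈ Finset.range (f.natDegree + 1), f.coeff i * 0)) := by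
    refine tendsto_finsetSum _ fun i _ => ?_
    refine Tendsto.const_mul _ ?_
    exact hE.comp (tendsto_add_atTop_nat i)
  simpa using h2

private theorem decomp {K : Type} [NormedField K] (f : K[X]) (X : ℕ → K) (a c : K)
    (hX : Tendsto (fun k => X k - a * c ^ k) atTop (𝓝 0)) :
    Tendsto (fun k => (aeval (sh K) f X) k - f.eval c * (a * c ^ k)) atTop (𝓝 0) := by
  have h := sh_tend f _ hX
  refine h.congr fun k => ?_
  have e : (fun k => X k - a * c ^ k) = X - fun k => a * c ^ k := rfl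
  rw [e, map_sub, Pi.sub_apply, sh_geom]

private theorem zero_of_tend {K : Type} [NormedField K] (w z : K) (hz : 1 ≤ ‖z‖)
    (h : Tendsto (fun k : ℕ => w * z ^ k) atTop (𝓝 0)) : w = 0 := by
  by_contra hw
  have h1 := h.norm
  rw [norm_zero] at h1
  have h2 : ‖w‖ ≤ 0 := by
    refine ge_of_tendsto h1 (Eventually.of_forall fun k => ?_)
    rw [norm_mul, norm_pow]
    exact le_mul_of_one_le_right (norm_nonneg _) (one_le_pow₀ hz)
  exact hw (norm_le_zero_iff.1 h2)

private theorem root_of_ann (f : ℝ[X]) (X : ℕ → ℝ) (lam c : ℝ) (hc : 1 < c) (hl : lam ≠ 0)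
    (hX : Tendsto (fun k => X k - lam * c ^ k) atTop (𝓝 0)) (h : aeval (sh ℝ) f X = 0) :
    f.eval c = 0 := by
  have h1 := (decomp f X lam c hX).neg
  rw [neg_zero] at h1
  have h2 : Tendsto (fun k : ℕ => (f.eval c * lam) * c ^ k) atTop (𝓝 0) := by
    refine h1.congr fun k => ?_
    rw [h, Pi.zero_apply]
    ring
  have h3 := zero_of_tend _ c (by rw [Real.norm_eq_abs, abs_of_pos (by linarith)]; exact hc.le) h2
  rcases mul_eq_zero.1 h3 with h4 | h4
  · exact h4
  · exact absurd h4 hl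

theorem hPsa (h1 : StFat) : StPsa := by
  intro c lam x hc hl halg hx
  have hcint : IsIntegral ℚ c := halg.isIntegral
  -- an integer polynomial with root `c`
  have halgZ : IsAlgebraic ℤ c := (IsFractionRing.isAlgebraic_iff ℤ ℚ ℝ).2 halg
  obtain ⟨P, hP0, hPc⟩ := halgZ
  have hPc' : (P.map (Int.castRingHom ℝ)).eval c = 0 := by
    rw [eval_map]
    exact hPc
  have hty : Tendsto (fun k => (((aeval (sh ℤ) P x) k : ℤ) : ℝ)) atTop (𝓝 0) := by
    have h := decomp (P.map (Int.castRingHom ℝ)) (fun k => (x k : ℝ)) lam c hx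
    refine h.congr fun k => ?_
    rw [hPc', zero_mul, sub_zero]
    exact cast_sh (Int.castRingHom ℝ) P x k
  have hev : ∀ᶠ k in atTop, (aeval (sh ℤ) P x) k = 0 := by
    have h := hty.eventually (Metric.ball_mem_nhds (0 : ℝ) one_pos)
    refine h.mono fun k hk => ?_
    have hk' : dist (((aeval (sh ℤ) P x) k : ℤ) : ℝ) 0 < 1 := hk
    rw [dist_zero_right, Real.norm_eq_abs] at hk'
    have h2 : |(aeval (sh ℤ) P x) k| < 1 := by exact_mod_cast hk'
    exact Int.abs_lt_one_iff.1 h2
  obtain ⟨k0, hk0⟩ := eventually_atTop.1 hev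
  have hann : aeval (sh ℚ) ((X ^ k0 * P).map (Int.castRingHom ℚ)) (fun k => (x k : ℚ)) = 0 := by
    funext k
    have h2 := cast_sh (Int.castRingHom ℚ) (X ^ k0 * P) x k
    rw [map_mul, map_pow, aeval_X, Module.End.mul_apply, sh_pow_apply, hk0 (k + k0) (by omega),
      map_zero] at h2
    exact h2
  have hne : (X ^ k0 * P).map (Int.castRingHom ℚ) ≠ 0 := by
    rw [Ne, Polynomial.map_eq_zero_iff (RingHom.injective_int _)]
    exact mul_ne_zero (pow_ne_zero _ X_ne_zero) hP0
  obtain ⟨m, hm, hmx⟩ := h1 x ⟨_, hne, hann⟩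
  have hmc : (m.map (Int.castRingHom ℝ)).eval c = 0 := by
    refine root_of_ann _ (fun k => (x k : ℝ)) lam c hc hl hx ?_
    funext k
    have h2 := cast_sh (Int.castRingHom ℝ) m x k
    rw [hmx, Pi.zero_apply, map_zero] at h2
    exact h2
  have hint : IsIntegral ℤ c := ⟨m, hm, by rw [eval_map] at hmc; exact hmc⟩
  refine ⟨hint, hc, fun z hz hzc => ?_⟩
  by_contra hz1
  rw [not_lt] at hz1
  -- a rational polynomial of least degree annihilating `x`
  set S : Set ℚ[X] := {f | f ≠ 0 ∧ aeval (sh ℚ) f (fun k => (x k : ℚ)) = 0} with hS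
  obtain ⟨ν, hνS, hmin⟩ := (measure (fun f : ℚ[X] => f.natDegree)).wf.has_min S ⟨_, hne, hann⟩
  obtain ⟨hν0, hνx⟩ := hνS
  have hνc : aeval c ν = 0 := by
    have h2 : (ν.map (algebraMap ℚ ℝ)).eval c = 0 := by
      refine root_of_ann _ (fun k => (x k : ℝ)) lam c hc hl hx ?_
      funext k
      have h3 := cast_sh (algebraMap ℚ ℝ) ν (fun k => (x k : ℚ)) k
      rw [hνx, Pi.zero_apply, map_zero] at h3
      have h4 : (fun j => (algebraMap ℚ ℝ) ((x j : ℚ))) = fun k => (x k : ℝ) := by
        funext j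
        simp
      rw [h4] at h3
      exact h3
    rw [eval_map] at h2
    exact h2
  obtain ⟨ψ, hψ⟩ := minpoly.dvd ℚ c hνc
  set μ := minpoly ℚ c with hμ
  have hμ0 : μ ≠ 0 := minpoly.ne_zero hcint
  have hψ0 : ψ ≠ 0 := by
    rintro rfl
    exact hν0 (by rw [hψ, mul_zero])
  set y : ℕ → ℚ := aeval (sh ℚ) ψ (fun k => (x k : ℚ)) with hy
  have hy0 : y ≠ 0 := by
    intro h
    refine hmin ψ ⟨hψ0, h⟩ ?_
    change ψ.natDegree < ν.natDegree
    rw [hψ, natDegree_mul hμ0 hψ0]
    have h5 : 0 < μ.natDegree := minpoly.natDegree_pos hcint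
    omega
  have hμy : aeval (sh ℚ) μ y = 0 := by
    rw [hy, ← Module.End.mul_apply, ← map_mul, ← hψ, hνx]
  -- complex version
  have hxC : Tendsto (fun k => ((x k : ℂ)) - (lam : ℂ) * (c : ℂ) ^ k) atTop (𝓝 0) := by
    have h2 := (Complex.continuous_ofReal.tendsto 0).comp hx
    rw [Complex.ofReal_zero] at h2
    refine h2.congr fun k => ?_
    simp
  have hyC : Tendsto (fun k => ((y k : ℂ)) -
      (ψ.map (algebraMap ℚ ℂ)).eval (c : ℂ) * (lam * (c : ℂ) ^ k)) atTop (𝓝 0) := by
    have h2 := decomp (ψ.map (algebraMap ℚ ℂ)) _ _ _ hxC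
    refine h2.congr fun k => ?_
    have h3 := cast_sh (algebraMap ℚ ℂ) ψ (fun k => (x k : ℚ)) k
    have h4 : (fun j => (algebraMap ℚ ℂ) ((x j : ℚ))) = fun k => (x k : ℂ) := by
      funext j
      simp
    rw [h4] at h3
    rw [h3]
    rfl
  have hμz : (μ.map (algebraMap ℚ ℂ)).IsRoot z := by
    rw [IsRoot, eval_map]
    exact hz
  obtain ⟨q, hq⟩ := dvd_iff_isRoot.2 hμz
  have hμC0 : μ.map (algebraMap ℚ ℂ) ≠ 0 := by
    rw [Ne, Polynomial.map_eq_zero]
    exact hμ0
  have hq0 : q ≠ 0 := by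
    rintro rfl
    exact hμC0 (by rw [hq, mul_zero])
  have hqc : q.eval (c : ℂ) = 0 := by
    have h2 : (μ.map (algebraMap ℚ ℂ)).eval (c : ℂ) = 0 := by
      rw [eval_map]
      have h3 : aeval (algebraMap ℝ ℂ c) μ = algebraMap ℝ ℂ (aeval c μ) :=
        aeval_algebraMap_apply ℂ c μ
      rw [minpoly.aeval, map_zero] at h3
      exact h3
    rw [hq, eval_mul, eval_sub, eval_X, eval_C] at h2
    rcases mul_eq_zero.1 h2 with h3 | h3
    · exact absurd (sub_eq_zero.1 h3).symm hzc
    · exact h3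
  set w : ℕ → ℂ := aeval (sh ℂ) q (fun k => (y k : ℂ)) with hw
  have hw1 : ∀ k, w (k + 1) = z * w k := by
    intro k
    have h2 : aeval (sh ℂ) (μ.map (algebraMap ℚ ℂ)) (fun k => (y k : ℂ)) = 0 := by
      funext k
      have h3 := cast_sh (algebraMap ℚ ℂ) μ y k
      rw [hμy, Pi.zero_apply, map_zero] at h3
      exact h3
    rw [hq, map_mul, Module.End.mul_apply, ← hw, map_sub, aeval_X, aeval_C] at h2
    have h3 := congrFun h2 k
    change w (k + 1) - z * w k = 0 at h3
    exact sub_eq_zero.1 h3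
  have hw2 : ∀ k, w k = w 0 * z ^ k := by
    intro k
    induction k with
    | zero => simp
    | succ k ih => rw [hw1, ih, pow_succ]; ring
  have hwt : Tendsto (fun k : ℕ => w 0 * z ^ k) atTop (𝓝 0) := by
    have h2 := decomp q (fun k => (y k : ℂ))
      ((ψ.map (algebraMap ℚ ℂ)).eval (c : ℂ) * lam) c (by
        refine hyC.congr fun k => ?_
        ring)
    refine h2.congr fun k => ?_
    rw [hqc, zero_mul, sub_zero, ← hw2 k]
  have hw0 : w 0 = 0 := zero_of_tend _ _ hz1 hwt
  have hwz : ∀ k, w k = 0 := fun k => by rw [hw2, hw0, zero_mul]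
  -- back to the rational numbers
  have hφ : ∃ φ : Module.Dual ℚ ℂ, φ q.leadingCoeff ≠ 0 := by
    by_contra hcon
    push Not at hcon
    exact leadingCoeff_ne_zero.2 hq0 ((Module.forall_dual_apply_eq_zero_iff ℚ _).1 hcon)
  obtain ⟨φ, hφ⟩ := hφ
  set g : ℚ[X] := ∑ i ∈ Finset.range (q.natDegree + 1), monomial i (φ (q.coeff i)) with hg
  have hgc : ∀ i, g.coeff i = φ (q.coeff i) := by
    intro i
    rw [hg, finsetSum_coeff]
    simp only [coeff_monomial]
    rw [Finset.sum_ite_eq']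
    split_ifs with h
    · rfl
    · rw [Finset.mem_range, not_lt] at h
      rw [coeff_eq_zero_of_natDegree_lt (by omega), map_zero]
  have hg0 : g ≠ 0 := by
    intro h
    apply hφ
    rw [← coeff_natDegree, ← hgc, h, coeff_zero]
  have hgd : g.natDegree < q.natDegree + 1 := by
    refine Nat.lt_succ_of_le (natDegree_le_iff_coeff_eq_zero.2 fun i hi => ?_)
    rw [hgc, coeff_eq_zero_of_natDegree_lt hi, map_zero]
  have hgy : aeval (sh ℚ) g y = 0 := by
    funext k
    rw [ash g _ hgd, Pi.zero_apply]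
    have h2 : ∑ i ∈ Finset.range (q.natDegree + 1), g.coeff i * y (k + i) =
        φ (∑ i ∈ Finset.range (q.natDegree + 1), q.coeff i * (y (k + i) : ℂ)) := by
      rw [map_sum]
      refine Finset.sum_congr rfl fun i _ => ?_
      have h3 : q.coeff i * (y (k + i) : ℂ) = y (k + i) • q.coeff i := by
        rw [Algebra.smul_def, mul_comm]
        rfl
      rw [h3, map_smul, hgc, smul_eq_mul, mul_comm]
    rw [h2]
    have h3 := hwz k
    rw [hw, ash q _ (Nat.lt_succ_self _)] at h3
    rw [h3, map_zero]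
  have hdeg : q.natDegree < μ.natDegree := by
    have h2 : (μ.map (algebraMap ℚ ℂ)).natDegree = μ.natDegree := natDegree_map _
    rw [← h2, hq, natDegree_mul (X_sub_C_ne_zero z) hq0, natDegree_X_sub_C]
    omega
  have hcop : IsCoprime μ g := by
    rw [(minpoly.irreducible hcint).coprime_iff_not_dvd]
    intro hd
    have h5 : μ.natDegree ≤ g.natDegree := natDegree_le_of_dvd hd hg0
    omega
  obtain ⟨u, v, huv⟩ := hcop
  apply hy0
  have h2 : aeval (sh ℚ) (u * μ + v * g) y = y := by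
    rw [huv, map_one]
    rfl
  rw [map_add, map_mul, map_mul, LinearMap.add_apply, Module.End.mul_apply, Module.End.mul_apply,
    hμy, hgy, map_zero, map_zero, add_zero] at h2
  exact h2.symm

end Pool.Agent.Helper38.SLM
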